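import Pool.Agent.TH879.MS.Tail

set_option autoImplicit false
set_option linter.unusedSectionVars false

/-!
# The blow-up of a group action with invariant multiplicities

A finite group acts on the finite set `Y` and `N : Y → ℕ` is invariant. In the blow-up the point `y`
is replaced by `N y` copies, and the group is replaced by the group of all permutations of the copies
that induce a member of the original group.
-/

namespace Pool.Agent.Y416.KK

open Finset
open Pool.Agent.TH965.Spread
open Pool.Agent.TH948.KK (ind ind_true ind_false ind_nonneg ind_le_one ind_mono ind_congr exs_sum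
  exs_congr exs_indep)

/-- The number of translates of `A`. -/
noncomputable def orb {G Y : Type} [Group G] [Fintype G] [DecidableEq Y]
    (φ : G →* Equiv.Perm Y) (A : Finset Y) : ℕ :=
  (Finset.univ.image (fun g : G => A.image (φ g))).card

section blow

variable {G Y : Type} [Group G] [Fintype G] [Fintype Y] [DecidableEq Y]

/-- The copies. -/
def cps (K : ℕ) (N : Y → ℕ) : Finset (Y × Fin (K + 1)) :=
  Finset.univ.filter (fun x => x.2.val < N x.1)

lemma mem_cps {K : ℕ} {N : Y → ℕ} {x : Y × Fin (K + 1)} : x ∈ cps K N ↔ x.2.val < N x.1 := by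
  simp [cps]

/-- The group of the blow-up. -/
def bg (φ : G →* Equiv.Perm Y) (K : ℕ) (N : Y → ℕ) : Subgroup (Equiv.Perm (Y × Fin (K + 1))) where
  carrier := {π | ∃ g : G, ∀ x, (π x).1 = φ g x.1 ∧ (π x ∈ cps K N ↔ x ∈ cps K N)}
  mul_mem' := by
    rintro π π' ⟨g, hg⟩ ⟨g', hg'⟩
    refine ⟨g * g', fun x => ⟨?_, ?_⟩⟩
    · rw [Equiv.Perm.mul_apply, (hg _).1, (hg' _).1, map_mul]
      rfl
    · rw [Equiv.Perm.mul_apply, (hg _).2, (hg' _).2]
  one_mem' := ⟨1, fun x => ⟨by simp, Iff.rfl⟩⟩
  inv_mem' := by
    rintro π ⟨g, hg⟩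
    refine ⟨g⁻¹, fun x => ⟨?_, ?_⟩⟩
    · have h := (hg (π⁻¹ x)).1
      have e : π (π⁻¹ x) = x := by
        rw [← Equiv.Perm.mul_apply, mul_inv_cancel, Equiv.Perm.one_apply]
      rw [e] at h
      rw [h, map_inv, ← Equiv.Perm.mul_apply, inv_mul_cancel, Equiv.Perm.one_apply]
    · have h := (hg (π⁻¹ x)).2
      have e : π (π⁻¹ x) = x := by
        rw [← Equiv.Perm.mul_apply, mul_inv_cancel, Equiv.Perm.one_apply]
      rw [e] at h
      exact h.symm

/-- The members of the orbit of a blown-up set. -/
lemma orbit_blow (φ : G →* Equiv.Perm Y) (K : ℕ) (N : Y → ℕ) (hN : ∀ y, N y ≤ K)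
    (hinv : ∀ g y, N (φ g y) = N y) (A : Finset Y) [Fintype (bg φ K N)] :
    orb φ A * ∏ y ∈ A, N y ≤
      (Finset.univ.image (fun π : bg φ K N =>
        (A.image (fun y => (y, (0 : Fin (K + 1))))).image (π : Equiv.Perm (Y × Fin (K + 1))))).card := by
  classical
  set D : Finset (Finset Y) := Finset.univ.image (fun g : G => A.image (φ g)) with hD
  set C : Finset Y → Finset (Y → Fin (K + 1)) := fun B =>
    Fintype.piFinset (fun y => if y ∈ B then Finset.univ.filter (fun i : Fin (K + 1) => i.val < N y)
      else {0}) with hC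
  have hcardfil : ∀ y, (Finset.univ.filter (fun i : Fin (K + 1) => i.val < N y)).card = N y := by
    intro y
    rw [Fin.card_filter_val_lt]
    have := hN y
    omega
  have hcardC : ∀ B ∈ D, (C B).card = ∏ y ∈ A, N y := by
    intro B hB
    rw [hD, Finset.mem_image] at hB
    obtain ⟨g, -, rfl⟩ := hB
    simp only [hC]
    rw [Fintype.card_piFinset]
    have h1 : ∀ y, (if y ∈ A.image (φ g) then Finset.univ.filter (fun i : Fin (K + 1) => i.val < N y)
      else {0}).card = if y ∈ A.image (φ g) then N y else 1 := by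
      intro y
      split_ifs
      · exact hcardfil y
      · rfl
    rw [Finset.prod_congr rfl (fun y _ => h1 y), Finset.prod_ite_mem, Finset.univ_inter,
      Finset.prod_image (fun a _ b _ h => (φ g).injective h)]
    exact Finset.prod_congr rfl (fun y _ => hinv g y)
  have hcardD : (D.sigma C).card = orb φ A * ∏ y ∈ A, N y := by
    rw [Finset.card_sigma, Finset.sum_congr rfl hcardC, Finset.sum_const, smul_eq_mul]
    rfl
  rw [← hcardD]
  apply Finset.card_le_card_of_injOn (fun x : (Σ _ : Finset Y, Y → Fin (K + 1)) =>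
    x.1.image (fun y => (y, x.2 y)))
  · rintro ⟨B, c⟩ hx
    rw [Finset.mem_coe, Finset.mem_sigma] at hx
    obtain ⟨hB, hc⟩ := hx
    simp only at hB hc
    rw [hD, Finset.mem_image] at hB
    obtain ⟨g, -, rfl⟩ := hB
    simp only [hC, Fintype.mem_piFinset] at hc
    have hc1 : ∀ y ∈ A.image (φ g), (c y).val < N y := by
      intro y hy
      have := hc y
      rw [if_pos hy, Finset.mem_filter] at this
      exact this.2
    have hc2 : ∀ y, y ∉ A.image (φ g) → c y = 0 := by
      intro y hy
      have := hc y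
      rw [if_neg hy, Finset.mem_singleton] at this
      exact this
    -- the permutation
    set π : Equiv.Perm (Y × Fin (K + 1)) :=
      { toFun := fun x => (φ g x.1, Equiv.swap 0 (c (φ g x.1)) x.2)
        invFun := fun x => ((φ g).symm x.1, Equiv.swap 0 (c x.1) x.2)
        left_inv := by
          rintro ⟨y, i⟩
          simp
        right_inv := by
          rintro ⟨y, i⟩
          simp } with hπ
    have hπa : ∀ y i, π (y, i) = (φ g y, Equiv.swap 0 (c (φ g y)) i) := fun _ _ => rfl
    have hmem : π ∈ bg φ K N := by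
      refine ⟨g, ?_⟩
      rintro ⟨y, i⟩
      refine ⟨rfl, ?_⟩
      rw [hπa, mem_cps, mem_cps]
      dsimp only
      rw [hinv]
      by_cases hy : φ g y ∈ A.image (φ g)
      · have h1 := hc1 _ hy
        rw [hinv] at h1
        have h0 : (0 : Fin (K + 1)).val < N y := by
          rw [Fin.val_zero]; omega
        by_cases hi0 : i = 0
        · rw [hi0, Equiv.swap_apply_left]
          exact ⟨fun _ => h0, fun _ => h1⟩
        · by_cases hic : i = c (φ g y)
          · rw [hic, Equiv.swap_apply_right]
            exact ⟨fun _ => h1, fun _ => h0⟩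
          · rw [Equiv.swap_apply_of_ne_of_ne hi0 hic]
      · rw [hc2 _ hy, Equiv.swap_self]
        rfl
    rw [Finset.mem_coe, Finset.mem_image]
    refine ⟨⟨π, hmem⟩, Finset.mem_univ _, ?_⟩
    dsimp only
    rw [Finset.image_image, Finset.image_image]
    apply Finset.image_congr
    intro y _
    change π (y, 0) = (φ g y, c (φ g y))
    rw [hπa, Equiv.swap_apply_left]
  · rintro ⟨B, c⟩ hx ⟨B', c'⟩ hx' h
    rw [Finset.mem_coe, Finset.mem_sigma] at hx hx'
    simp only at h
    have hBB : B = B' := by
      have h1 := congrArg (fun T : Finset (Y × Fin (K + 1)) => T.image Prod.fst) h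
      simp only [Finset.image_image] at h1
      have h2 : ∀ (c : Y → Fin (K + 1)) (B : Finset Y), B.image (Prod.fst ∘ fun y => (y, c y)) = B := by
        intro c B
        have : (Prod.fst ∘ fun y => (y, c y)) = id := rfl
        rw [this, Finset.image_id]
      rwa [h2, h2] at h1
    subst hBB
    have hcc : c = c' := by
      funext y
      by_cases hy : y ∈ B
      · have h1 : (y, c y) ∈ B.image (fun y => (y, c' y)) := by
          rw [← h]
          exact Finset.mem_image_of_mem _ hy
        rw [Finset.mem_image] at h1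
        obtain ⟨z, _, hz⟩ := h1
        rw [Prod.mk.injEq] at hz
        obtain ⟨hz1, hz2⟩ := hz
        subst hz1
        exact hz2.symm
      · have h1 := hx.2
        have h2 := hx'.2
        simp only [hC, Fintype.mem_piFinset] at h1 h2
        have h1 := h1 y
        have h2 := h2 y
        rw [if_neg hy, Finset.mem_singleton] at h1 h2
        rw [h1, h2]
    rw [hcc]

/-- The points with a copy in `W`. -/
def prj {K : ℕ} (W : Finset (Y × Fin (K + 1))) : Finset Y := W.image Prod.fst

/-- The tail estimate in the blow-up. -/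
theorem blow_tail (φ : G →* Equiv.Perm Y) (H : Finset Y) (hH : H.Nonempty)
    (K M : ℕ) (hM : 0 < M) (N : Y → ℕ) (hNK : ∀ y, N y ≤ K) (hinv : ∀ g y, N (φ g y) = N y)
    (w : Y → ℝ) (hw : ∀ y, 0 ≤ w y) (hNw : ∀ y, M * w y ≤ N y)
    (r : ℕ → ℝ) (hr : ∀ t, 0 < r t) (hra : Antitone r)
    (hdbl : ∀ u t : ℕ, 1 ≤ u → u ≤ t → (u : ℝ) * r u ≤ t * r t)
    (hO : ∀ A ⊆ H, 1 ≤ (orb φ A : ℝ) * ∏ y ∈ A, (r A.card * w y))
    (hsmall : 65536 * (48 * r 0) < M) (d : ℝ) (hd0 : 0 ≤ d) (hd1 : d ≤ M) :
    exs (cps K N) (d / M) (fun W => ind (¬ ∃ g : G, H.image (φ g) ⊆ prj W))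
      ≤ Real.exp ((Real.log 3 / (65536 * (48 * r 0)))
        * (6 * 65536 * 48 * ∑ κ ∈ Finset.range (Nat.log 2 H.card + 1), r (2 ^ κ) - d)) := by
  classical
  have hM0 : (0 : ℝ) < M := by exact_mod_cast hM
  set H' : Finset (Y × Fin (K + 1)) := H.image (fun y => (y, (0 : Fin (K + 1)))) with hH'
  have hinj : Function.Injective (fun y : Y => (y, (0 : Fin (K + 1)))) := by
    intro a b h
    exact (Prod.mk.inj h).1
  have hcardH' : H'.card = H.card := Finset.card_image_of_injective _ hinj
  -- the points of `H` have positive weight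
  have hpos : ∀ y ∈ H, 0 < w y := by
    intro y hy
    have h1 := hO {y} (Finset.singleton_subset_iff.mpr hy)
    rw [Finset.prod_singleton] at h1
    rcases (hw y).lt_or_eq with h | h
    · exact h
    · rw [← h, mul_zero, mul_zero] at h1
      linarith
  have hNpos : ∀ y ∈ H, 0 < N y := by
    intro y hy
    have h1 : (0 : ℝ) < N y := lt_of_lt_of_le (mul_pos hM0 (hpos y hy)) (hNw y)
    exact_mod_cast h1
  -- the group of the blow-up acts
  have hs : ∀ π : bg φ K N, H'.image ((bg φ K N).subtype π) ⊆ cps K N := by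
    rintro ⟨π, g, hg⟩ x hx
    rw [Finset.mem_image] at hx
    obtain ⟨z, hz, rfl⟩ := hx
    rw [hH', Finset.mem_image] at hz
    obtain ⟨y, hy, rfl⟩ := hz
    change π (y, 0) ∈ cps K N
    rw [(hg _).2, mem_cps]
    exact hNpos y hy
  have hmain := Pool.Agent.TH879.MS.action_tail (bg φ K N).subtype (cps K N) H'
    (hH.image _) hs (fun t => r t / M) (fun t => div_pos (hr t) hM0)
    (fun a b hab => div_le_div_of_nonneg_right (hra hab) hM0.le)
    (fun u t hu hut => by
      have h1 := hdbl u t hu hut
      calc (u : ℝ) * (r u / M) = (u * r u) / M := by ring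
        _ ≤ (t * r t) / M := div_le_div_of_nonneg_right h1 hM0.le
        _ = t * (r t / M) := by ring)
    (by
      intro A' hA'
      -- `A'` is the image of a subset of `H`
      obtain ⟨A, hA, rfl⟩ : ∃ A ⊆ H, A' = A.image (fun y => (y, (0 : Fin (K + 1)))) := by
        refine ⟨H.filter (fun y => (y, (0 : Fin (K + 1))) ∈ A'), Finset.filter_subset _ _, ?_⟩
        ext x
        constructor
        · intro hx
          have h1 := hA' hx
          rw [hH', Finset.mem_image] at h1
          obtain ⟨y, hy, rfl⟩ := h1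
          exact Finset.mem_image_of_mem _ (Finset.mem_filter.mpr ⟨hy, hx⟩)
        · intro hx
          rw [Finset.mem_image] at hx
          obtain ⟨y, hy, rfl⟩ := hx
          exact (Finset.mem_filter.mp hy).2
      have hcard : (A.image (fun y => (y, (0 : Fin (K + 1))))).card = A.card :=
        Finset.card_image_of_injective _ hinj
      rw [hcard]
      have h1 := orbit_blow φ K N hNK hinv A
      have h2 : ((orb φ A * ∏ y ∈ A, N y : ℕ) : ℝ) ≤ ((Finset.univ.image (fun π : bg φ K N =>
        (A.image (fun y => (y, (0 : Fin (K + 1))))).image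
          ((bg φ K N).subtype π : Equiv.Perm (Y × Fin (K + 1))))).card : ℝ) := by
        exact_mod_cast h1
      have h3 : (1 : ℝ) ≤ ((orb φ A * ∏ y ∈ A, N y : ℕ) : ℝ) * (r A.card / M) ^ A.card := by
        refine (hO A hA).trans ?_
        push_cast
        rw [mul_assoc]
        apply mul_le_mul_of_nonneg_left _ (Nat.cast_nonneg _)
        rw [← Finset.prod_const, ← Finset.prod_mul_distrib]
        apply Finset.prod_le_prod
        · intro y _
          exact mul_nonneg (hr _).le (hw y)
        · intro y _
          have h4 := hNw y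
          have h5 := (hr A.card).le
          calc r A.card * w y = (M * w y) * (r A.card / M) := by field_simp
            _ ≤ N y * (r A.card / M) :=
                mul_le_mul_of_nonneg_right h4 (div_nonneg h5 hM0.le)
      refine h3.trans ?_
      exact mul_le_mul_of_nonneg_right h2 (by
        have := (hr A.card).le
        positivity))
    (by
      have h1 : 65536 * (48 * (r 0 / M)) = (65536 * (48 * r 0)) / M := by ring
      rw [h1, div_lt_one hM0]
      exact hsmall)
    (d / M) (div_nonneg hd0 hM0.le) ((div_le_one hM0).mpr hd1)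
  have hle : exs (cps K N) (d / M) (fun W => ind (¬ ∃ g : G, H.image (φ g) ⊆ prj W))
      ≤ exs (cps K N) (d / M)
        (fun W => ind (¬ ∃ π : bg φ K N, H'.image ((bg φ K N).subtype π) ⊆ W)) := by
    apply exs_mono _ (div_nonneg hd0 hM0.le) ((div_le_one hM0).mpr hd1)
    intro W _
    apply ind_mono
    rintro h ⟨⟨π, g, hg⟩, hπ⟩
    apply h
    refine ⟨g, ?_⟩
    intro y hy
    rw [Finset.mem_image] at hy
    obtain ⟨z, hz, rfl⟩ := hy
    rw [prj, Finset.mem_image]
    refine ⟨π (z, 0), ?_, (hg _).1⟩
    apply hπ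
    rw [Finset.mem_image]
    exact ⟨(z, 0), Finset.mem_image_of_mem _ hz, rfl⟩
  refine hle.trans (hmain.trans (le_of_eq ?_))
  congr 1
  rw [hcardH']
  have hr0 := (hr 0).ne'
  have e1 : ∑ κ ∈ Finset.range (Nat.log 2 H.card + 1), r (2 ^ κ) / (M : ℝ)
      = (∑ κ ∈ Finset.range (Nat.log 2 H.card + 1), r (2 ^ κ)) / M := by
    rw [Finset.sum_div]
  rw [e1]
  field_simp

end blow

end Pool.Agent.Y416.KK
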