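import Pool.Agent.Y416.KK.Blow

set_option autoImplicit false
set_option linter.unusedSectionVars false

/-!
# Comparison of a random set with independent blocks and a binomial random set of copies
-/

namespace Pool.Agent.Y416.KK

open Finset
open Pool.Agent.TH965.Spread
open Pool.Agent.TH948.KK (ind ind_true ind_false ind_nonneg ind_le_one ind_mono ind_congr exs_sum
  exs_congr exs_indep)

section exsLemmas

variable {Z : Type*} [DecidableEq Z]

/-- Random subsets of disjoint sets are independent. -/
lemma exs_disjUnion (s₁ : Finset Z) (p : ℝ) (s₂ : Finset Z) (hd : Disjoint s₁ s₂)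
    (F : Finset Z → ℝ) :
    exs (s₁ ∪ s₂) p F = exs s₂ p (fun W₂ => exs s₁ p (fun W₁ => F (W₁ ∪ W₂))) := by
  induction s₂ using Finset.induction_on generalizing F with
  | empty =>
    rw [Finset.union_empty, exs_empty]
    simp only [Finset.union_empty]
  | insert a s ha ih =>
    rw [Finset.disjoint_insert_right] at hd
    have hau : a ∉ s₁ ∪ s := by
      rw [Finset.mem_union]
      rintro (h | h)
      · exact hd.1 h
      · exact ha h
    rw [Finset.union_insert, exs_insert _ _ hau, exs_insert _ _ ha, ih hd.2, ih hd.2]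
    simp only [Finset.union_insert]

lemma exs_nonneg (s : Finset Z) {p : ℝ} (hp0 : 0 ≤ p) (hp1 : p ≤ 1) {F : Finset Z → ℝ}
    (h : ∀ W, 0 ≤ F W) : 0 ≤ exs s p F := by
  have := exs_mono s hp0 hp1 (f := fun _ => 0) (g := F) (fun W _ => h W)
  rwa [exs_const] at this

/-- The probability of avoiding a subset. -/
lemma exs_avoid (p : ℝ) (s K : Finset Z) (hK : K ⊆ s) :
    exs s p (fun W => ind (Disjoint W K)) = (1 - p) ^ K.card := by
  induction s using Finset.induction_on generalizing K with
  | empty =>
    rw [Finset.subset_empty] at hK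
    rw [exs_empty, hK, Finset.card_empty, pow_zero]
    exact ind_true (Finset.disjoint_empty_right _)
  | insert a s ha ih =>
    rw [exs_insert _ _ ha]
    by_cases haK : a ∈ K
    · have h1 : exs s p (fun W => ind (Disjoint (insert a W) K)) = 0 := by
        have : exs s p (fun W => ind (Disjoint (insert a W) K)) = exs s p (fun _ => 0) := by
          apply exs_congr
          intro W _
          apply ind_false
          rw [Finset.disjoint_insert_left]
          exact fun h => h.1 haK
        rw [this, exs_const]
      have h2 : exs s p (fun W => ind (Disjoint W K))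
          = exs s p (fun W => ind (Disjoint W (K.erase a))) := by
        apply exs_congr
        intro W hW
        apply ind_congr
        have haW : a ∉ W := fun h => ha (hW h)
        rw [Finset.disjoint_left, Finset.disjoint_left]
        constructor
        · intro h x hx hxK
          exact h hx (Finset.mem_of_mem_erase hxK)
        · intro h x hx hxK
          exact h hx (Finset.mem_erase.mpr ⟨fun hxa => haW (hxa ▸ hx), hxK⟩)
      rw [h1, h2, ih (K.erase a) (by
        intro x hx
        rw [Finset.mem_erase] at hx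
        exact (Finset.mem_insert.mp (hK hx.2)).resolve_left hx.1)]
      have h3 : K.card = (K.erase a).card + 1 := (Finset.card_erase_add_one haK).symm
      rw [h3, pow_succ]
      ring
    · have hKs : K ⊆ s := by
        intro x hx
        exact (Finset.mem_insert.mp (hK hx)).resolve_left (fun h => haK (h ▸ hx))
      have h1 : exs s p (fun W => ind (Disjoint (insert a W) K))
          = exs s p (fun W => ind (Disjoint W K)) := by
        apply exs_congr
        intro W _
        apply ind_congr
        rw [Finset.disjoint_insert_left]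
        exact ⟨fun h => h.2, fun h => ⟨haK, h⟩⟩
      rw [h1, ih K hKs]
      ring

end exsLemmas

section blocks

variable {X Y : Type} [Fintype Y] [DecidableEq Y] [DecidableEq X]

/-- The fibres over the members of `T`. -/
def fbT (f : Y → X) (T : Finset X) : Finset Y := Finset.univ.filter (fun y => f y ∈ T)

/-- The fibre over `x`. -/
def fb (f : Y → X) (x : X) : Finset Y := Finset.univ.filter (fun y => f y = x)

lemma mem_fbT {f : Y → X} {T : Finset X} {y : Y} : y ∈ fbT f T ↔ f y ∈ T := by simp [fbT]

lemma mem_fb {f : Y → X} {x : X} {y : Y} : y ∈ fb f x ↔ f y = x := by simp [fb]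

/-- The sum over the random sets with independent blocks. -/
noncomputable def Em (f : Y → X) (m : X → Finset Y → ℝ) (T : Finset X) (F : Finset Y → ℝ) : ℝ :=
  ∑ S ∈ (fbT f T).powerset, (∏ x ∈ T, m x (S.filter (fun y => f y = x))) * F S

lemma Em_empty (f : Y → X) (m : X → Finset Y → ℝ) (F : Finset Y → ℝ) : Em f m ∅ F = F ∅ := by
  unfold Em
  have : fbT f (∅ : Finset X) = ∅ := by
    ext y
    rw [mem_fbT]
    simp
  rw [this]
  simp

lemma Em_insert (f : Y → X) (m : X → Finset Y → ℝ) (T : Finset X) (x : X) (hx : x ∉ T)
    (F : Finset Y → ℝ) :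
    Em f m (insert x T) F
      = ∑ S₂ ∈ (fb f x).powerset, m x S₂ * Em f m T (fun S₁ => F (S₁ ∪ S₂)) := by
  unfold Em
  simp only [Finset.mul_sum]
  rw [← Finset.sum_product']
  refine Finset.sum_bij' (fun S _ => (S.filter (fun y => f y = x), S.filter (fun y => f y ∈ T)))
    (fun P _ => P.2 ∪ P.1) ?_ ?_ ?_ ?_ ?_
  · intro S hS
    rw [Finset.mem_product, Finset.mem_powerset, Finset.mem_powerset]
    constructor
    · intro y hy
      rw [mem_fb]
      exact (Finset.mem_filter.mp hy).2
    · intro y hy
      rw [mem_fbT]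
      exact (Finset.mem_filter.mp hy).2
  · rintro ⟨S₂, S₁⟩ hS
    rw [Finset.mem_product, Finset.mem_powerset, Finset.mem_powerset] at hS
    rw [Finset.mem_powerset]
    intro y hy
    rw [mem_fbT, Finset.mem_insert]
    rw [Finset.mem_union] at hy
    rcases hy with hy | hy
    · exact Or.inr (mem_fbT.mp (hS.2 hy))
    · exact Or.inl (mem_fb.mp (hS.1 hy))
  · intro S hS
    rw [Finset.mem_powerset] at hS
    ext y
    simp only [Finset.mem_union, Finset.mem_filter]
    constructor
    · rintro (h | h)
      · exact h.1
      · exact h.1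
    · intro h
      have := mem_fbT.mp (hS h)
      rw [Finset.mem_insert] at this
      rcases this with h1 | h1
      · exact Or.inr ⟨h, h1⟩
      · exact Or.inl ⟨h, h1⟩
  · rintro ⟨S₂, S₁⟩ hS
    rw [Finset.mem_product, Finset.mem_powerset, Finset.mem_powerset] at hS
    obtain ⟨h2, h1⟩ := hS
    simp only at h1 h2
    dsimp only
    rw [Prod.mk.injEq]
    constructor
    · ext y
      simp only [Finset.mem_union, Finset.mem_filter]
      constructor
      · rintro ⟨h | h, he⟩
        · exact absurd (he ▸ mem_fbT.mp (h1 h)) hx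
        · exact h
      · intro h
        exact ⟨Or.inr h, mem_fb.mp (h2 h)⟩
    · ext y
      simp only [Finset.mem_union, Finset.mem_filter]
      constructor
      · rintro ⟨h | h, he⟩
        · exact h
        · rw [mem_fb.mp (h2 h)] at he
          exact absurd he hx
      · intro h
        exact ⟨Or.inl h, mem_fbT.mp (h1 h)⟩
  · intro S hS
    rw [Finset.mem_powerset] at hS
    dsimp only
    rw [Finset.prod_insert hx, mul_assoc]
    congr 1
    have e1 : ∏ z ∈ T, m z (S.filter (fun y => f y = z))
        = ∏ z ∈ T, m z ((S.filter (fun y => f y ∈ T)).filter (fun y => f y = z)) := by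
      apply Finset.prod_congr rfl
      intro z hz
      congr 1
      rw [Finset.filter_filter]
      apply Finset.filter_congr
      intro y _
      constructor
      · intro h
        exact ⟨h ▸ hz, h⟩
      · intro h
        exact h.2
    have e2 : S.filter (fun y => f y ∈ T) ∪ S.filter (fun y => f y = x) = S := by
      ext y
      simp only [Finset.mem_union, Finset.mem_filter]
      constructor
      · rintro (h | h)
        · exact h.1
        · exact h.1
      · intro h
        have := mem_fbT.mp (hS h)
        rw [Finset.mem_insert] at this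
        rcases this with h1 | h1
        · exact Or.inr ⟨h, h1⟩
        · exact Or.inl ⟨h, h1⟩
    rw [e1, e2]

lemma Em_mono (f : Y → X) (m : X → Finset Y → ℝ) (hm0 : ∀ x S, 0 ≤ m x S) (T : Finset X)
    {F F' : Finset Y → ℝ} (h : ∀ S, F S ≤ F' S) : Em f m T F ≤ Em f m T F' := by
  unfold Em
  apply Finset.sum_le_sum
  intro S _
  apply mul_le_mul_of_nonneg_left (h S)
  exact Finset.prod_nonneg (fun x _ => hm0 _ _)

/-- One block. -/
lemma block_le (f : Y → X) (m : X → Finset Y → ℝ)
    (K : ℕ) (N : Y → ℕ) (hNK : ∀ y, N y ≤ K) (p : ℝ) (hp0 : 0 ≤ p) (hp1 : p ≤ 1)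
    (hm : ∀ x, ∀ B ⊆ fb f x, ∑ S ∈ (fb f x).powerset with Disjoint S B, m x S
      ≤ (1 - p) ^ (∑ y ∈ B, N y))
    (L : Finset Y → Prop) (hL1 : ∀ S S', S ⊆ S' → L S' → L S)
    (hL2 : ∀ x S T, (∀ y ∈ T, f y = x) → L S → (∀ y ∈ T, L (insert y S)) → L (S ∪ T))
    (x : X) (S : Finset Y) :
    ∑ S₂ ∈ (fb f x).powerset, m x S₂ * ind (L (S ∪ S₂))
      ≤ exs ((cps K N).filter (fun z => f z.1 = x)) p (fun W₂ => ind (L (S ∪ prj W₂))) := by
  classical
  by_cases hLS : L S
  swap
  · have h1 : ∑ S₂ ∈ (fb f x).powerset, m x S₂ * ind (L (S ∪ S₂)) = 0 := by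
      apply Finset.sum_eq_zero
      intro S₂ _
      rw [ind_false (fun h => hLS (hL1 _ _ Finset.subset_union_left h)), mul_zero]
    rw [h1]
    exact exs_nonneg _ hp0 hp1 (fun W => ind_nonneg _)
  · set B : Finset Y := (fb f x).filter (fun y => ¬ L (insert y S)) with hB
    have hBsub : B ⊆ fb f x := Finset.filter_subset _ _
    have key : ∀ S₂ ⊆ fb f x, (L (S ∪ S₂) ↔ Disjoint S₂ B) := by
      intro S₂ hS₂
      constructor
      · intro h
        rw [Finset.disjoint_left]
        intro y hy hyB
        apply (Finset.mem_filter.mp hyB).2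
        apply hL1 _ _ _ h
        intro z hz
        rw [Finset.mem_insert] at hz
        rw [Finset.mem_union]
        rcases hz with rfl | hz
        · exact Or.inr hy
        · exact Or.inl hz
      · intro h
        apply hL2 x S S₂ (fun y hy => mem_fb.mp (hS₂ hy)) hLS
        intro y hy
        by_contra hcon
        exact (Finset.disjoint_left.mp h hy) (Finset.mem_filter.mpr ⟨hS₂ hy, hcon⟩)
    have hleft : ∑ S₂ ∈ (fb f x).powerset, m x S₂ * ind (L (S ∪ S₂))
        = ∑ S₂ ∈ (fb f x).powerset with Disjoint S₂ B, m x S₂ := by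
      rw [Finset.sum_filter]
      apply Finset.sum_congr rfl
      intro S₂ hS₂
      rw [Finset.mem_powerset] at hS₂
      by_cases h : Disjoint S₂ B
      · rw [if_pos h, ind_true ((key S₂ hS₂).mpr h), mul_one]
      · rw [if_neg h, ind_false (fun h' => h ((key S₂ hS₂).mp h')), mul_zero]
    set B' : Finset (Y × Fin (K + 1)) :=
      ((cps K N).filter (fun z => f z.1 = x)).filter (fun z => z.1 ∈ B) with hB'
    have hcard : B'.card = ∑ y ∈ B, N y := by
      have h1 : B' = B.biUnion (fun y => (Finset.univ.filter (fun i : Fin (K + 1) => i.val < N y)).image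
          (fun i => (y, i))) := by
        ext ⟨y, i⟩
        rw [hB', Finset.mem_filter, Finset.mem_filter, mem_cps, Finset.mem_biUnion]
        constructor
        · rintro ⟨⟨h1, h2⟩, h3⟩
          refine ⟨y, h3, ?_⟩
          rw [Finset.mem_image]
          exact ⟨i, Finset.mem_filter.mpr ⟨Finset.mem_univ _, h1⟩, rfl⟩
        · rintro ⟨y', hy', h⟩
          rw [Finset.mem_image] at h
          obtain ⟨i', hi', he⟩ := h
          rw [Prod.mk.injEq] at he
          obtain ⟨rfl, rfl⟩ := he
          exact ⟨⟨(Finset.mem_filter.mp hi').2, mem_fb.mp (hBsub hy')⟩, hy'⟩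
      rw [h1, Finset.card_biUnion]
      · apply Finset.sum_congr rfl
        intro y _
        rw [Finset.card_image_of_injective _ (fun a b h => (Prod.mk.inj h).2),
          Fin.card_filter_val_lt]
        have := hNK y
        omega
      · intro y _ y' _ hne
        rw [Function.onFun, Finset.disjoint_left]
        rintro z hz hz'
        rw [Finset.mem_image] at hz hz'
        obtain ⟨i, -, rfl⟩ := hz
        obtain ⟨i', -, h⟩ := hz'
        exact hne (Prod.mk.inj h).1.symm
    have hright : exs ((cps K N).filter (fun z => f z.1 = x)) p (fun W₂ => ind (L (S ∪ prj W₂)))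
        = (1 - p) ^ (∑ y ∈ B, N y) := by
      rw [← hcard, ← exs_avoid p _ B' (Finset.filter_subset _ _)]
      apply exs_congr
      intro W hW
      apply ind_congr
      have hWf : prj W ⊆ fb f x := by
        intro y hy
        rw [prj, Finset.mem_image] at hy
        obtain ⟨z, hz, rfl⟩ := hy
        rw [mem_fb]
        exact (Finset.mem_filter.mp (hW hz)).2
      rw [key _ hWf, Finset.disjoint_left, Finset.disjoint_left]
      constructor
      · intro h z hz hzB
        exact h (Finset.mem_image_of_mem _ hz) (Finset.mem_filter.mp hzB).2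
      · intro h y hy hyB
        rw [prj, Finset.mem_image] at hy
        obtain ⟨z, hz, rfl⟩ := hy
        exact h hz (Finset.mem_filter.mpr ⟨hW hz, hyB⟩)
    rw [hleft, hright]
    exact hm x B hBsub

/-- **Comparison.** -/
theorem compare (f : Y → X) (m : X → Finset Y → ℝ) (hm0 : ∀ x S, 0 ≤ m x S)
    (K : ℕ) (N : Y → ℕ) (hNK : ∀ y, N y ≤ K) (p : ℝ) (hp0 : 0 ≤ p) (hp1 : p ≤ 1)
    (hm : ∀ x, ∀ B ⊆ fb f x, ∑ S ∈ (fb f x).powerset with Disjoint S B, m x S
      ≤ (1 - p) ^ (∑ y ∈ B, N y))
    (L : Finset Y → Prop) (hL1 : ∀ S S', S ⊆ S' → L S' → L S)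
    (hL2 : ∀ x S T, (∀ y ∈ T, f y = x) → L S → (∀ y ∈ T, L (insert y S)) → L (S ∪ T))
    (T : Finset X) : ∀ S₀ : Finset Y,
    Em f m T (fun S => ind (L (S₀ ∪ S)))
      ≤ exs ((cps K N).filter (fun z => f z.1 ∈ T)) p (fun W => ind (L (S₀ ∪ prj W))) := by
  classical
  induction T using Finset.induction_on with
  | empty =>
    intro S₀
    have h1 : (cps K N).filter (fun z => f z.1 ∈ (∅ : Finset X)) = ∅ := by
      rw [Finset.filter_eq_empty_iff]
      intro z _
      exact Finset.notMem_empty _
    rw [Em_empty, h1, exs_empty]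
    exact le_rfl
  | insert x T hx ih =>
    intro S₀
    rw [Em_insert f m T x hx]
    have hsplit : (cps K N).filter (fun z => f z.1 ∈ insert x T)
        = (cps K N).filter (fun z => f z.1 = x) ∪ (cps K N).filter (fun z => f z.1 ∈ T) := by
      rw [← Finset.filter_or]
      apply Finset.filter_congr
      intro z _
      rw [Finset.mem_insert]
    have hdisj : Disjoint ((cps K N).filter (fun z => f z.1 = x))
        ((cps K N).filter (fun z => f z.1 ∈ T)) := by
      rw [Finset.disjoint_left]
      intro z hz hz'
      rw [Finset.mem_filter] at hz hz'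
      exact hx (hz.2 ▸ hz'.2)
    rw [hsplit, exs_disjUnion _ _ _ hdisj]
    calc ∑ S₂ ∈ (fb f x).powerset, m x S₂ * Em f m T (fun S₁ => ind (L (S₀ ∪ (S₁ ∪ S₂))))
        ≤ ∑ S₂ ∈ (fb f x).powerset, m x S₂ * exs ((cps K N).filter (fun z => f z.1 ∈ T)) p
            (fun W => ind (L ((S₀ ∪ prj W) ∪ S₂))) := by
          apply Finset.sum_le_sum
          intro S₂ _
          apply mul_le_mul_of_nonneg_left _ (hm0 _ _)
          have h1 := ih (S₀ ∪ S₂)
          have e1 : (fun S₁ => ind (L (S₀ ∪ (S₁ ∪ S₂)))) = (fun S => ind (L (S₀ ∪ S₂ ∪ S))) := by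
            funext S
            congr 2
            rw [Finset.union_comm S S₂, Finset.union_assoc]
          have e2 : (fun W => ind (L ((S₀ ∪ prj W) ∪ S₂)))
              = (fun W : Finset (Y × Fin (K + 1)) => ind (L (S₀ ∪ S₂ ∪ prj W))) := by
            funext W
            congr 2
            rw [Finset.union_right_comm]
          rw [e1, e2]
          exact h1
      _ = exs ((cps K N).filter (fun z => f z.1 ∈ T)) p
            (fun W => ∑ S₂ ∈ (fb f x).powerset, m x S₂ * ind (L ((S₀ ∪ prj W) ∪ S₂))) := by
          rw [exs_sum]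
          apply Finset.sum_congr rfl
          intro S₂ _
          rw [exs_mul_left]
      _ ≤ exs ((cps K N).filter (fun z => f z.1 ∈ T)) p
            (fun W => exs ((cps K N).filter (fun z => f z.1 = x)) p
              (fun W₂ => ind (L ((S₀ ∪ prj W) ∪ prj W₂)))) := by
          apply exs_mono _ hp0 hp1
          intro W _
          exact block_le f m K N hNK p hp0 hp1 hm L hL1 hL2 x (S₀ ∪ prj W)
      _ = exs ((cps K N).filter (fun z => f z.1 ∈ T)) p
            (fun W₂ => exs ((cps K N).filter (fun z => f z.1 = x)) p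
              (fun W₁ => ind (L (S₀ ∪ prj (W₁ ∪ W₂))))) := by
          congr 1
          funext W
          congr 1
          funext W₂
          congr 2
          rw [prj, prj, prj, Finset.image_union, Finset.union_assoc,
            Finset.union_comm (W.image Prod.fst)]

end blocks

end Pool.Agent.Y416.KK
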