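import Pool.Agent.Y416.KK.Cmp

set_option autoImplicit false
set_option linter.unusedSectionVars false

/-!
# The second Kahn-Kalai theorem for group actions, invariant weights and independent blocks
-/

namespace Pool.Agent.Y416.KK

open Finset MeasureTheory ProbabilityTheory
open Pool.Agent.TH965.Spread
open Pool.Agent.TH948.KK (ind ind_true ind_false ind_nonneg ind_le_one ind_mono ind_congr exs_sum
  exs_congr exs_indep)

section law

variable {X Y Ω : Type} [Fintype Y] [DecidableEq Y] [Fintype X] [DecidableEq X]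
  [MeasurableSpace Ω] (μ : Measure Ω) [IsProbabilityMeasure μ] (f : Y → X) (R : Ω → Finset Y)

/-- The law of a block. -/
noncomputable def blk (x : X) (S : Finset Y) : ℝ :=
  μ.real {ω | (R ω).filter (fun y => f y = x) = S}

include R in
lemma meas_pred (hmeas : ∀ S, MeasurableSet {ω | R ω = S}) (P : Finset Y → Prop) :
    MeasurableSet {ω | P (R ω)} := by
  classical
  have h : {ω | P (R ω)} = ⋃ S ∈ Finset.univ.filter P, {ω | R ω = S} := by
    ext ω
    simp
  rw [h]
  exact Finset.measurableSet_biUnion _ (fun S _ => hmeas S)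

lemma real_eq_sum (hmeas : ∀ S, MeasurableSet {ω | R ω = S}) {β : Type} [DecidableEq β]
    (u : Finset Y → β) (B : Finset β) :
    μ.real {ω | u (R ω) ∈ B} = ∑ S ∈ B, μ.real {ω | u (R ω) = S} := by
  have h : {ω | u (R ω) ∈ B} = ⋃ S ∈ B, {ω | u (R ω) = S} := by
    ext ω
    simp
  rw [h]
  apply measureReal_biUnion_finset
  · intro S _ S' _ hne
    rw [Function.onFun, Set.disjoint_left]
    intro ω hω hω'
    exact hne (hω.symm.trans hω')
  · intro S _
    exact meas_pred R hmeas (fun T => u T = S)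
  · intro S _
    exact measure_ne_top _ _

lemma law_eq (hmeas : ∀ S, MeasurableSet {ω | R ω = S})
    (hind : iIndepFun (m := fun _ => ⊤) (fun (x : X) ω => (R ω).filter (fun y => f y = x)) μ)
    (L : Finset Y → Prop) :
    μ.real {ω | L (R ω)} = Em f (blk μ f R) Finset.univ (fun S => ind (L S)) := by
  classical
  have h1 : μ.real {ω | L (R ω)} = ∑ S ∈ Finset.univ.filter L, μ.real {ω | R ω = S} := by
    have := real_eq_sum μ R hmeas id (Finset.univ.filter L)
    simpa using this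
  have h2 : ∀ S : Finset Y, μ.real {ω | R ω = S}
      = ∏ x, blk μ f R x (S.filter (fun y => f y = x)) := by
    intro S
    have h3 := iIndepFun.measure_inter_preimage_eq_mul hind Finset.univ
      (sets := fun x => {T | T = S.filter (fun y => f y = x)}) (fun _ _ => trivial)
    have h4 : (⋂ x ∈ (Finset.univ : Finset X), (fun ω => (R ω).filter (fun y => f y = x)) ⁻¹'
        {T | T = S.filter (fun y => f y = x)}) = {ω | R ω = S} := by
      ext ω
      simp only [Finset.mem_univ, Set.iInter_true, Set.mem_iInter, Set.mem_preimage,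
        Set.mem_ofPred_eq]
      constructor
      · intro h
        ext y
        have := h (f y)
        have h5 : y ∈ (R ω).filter (fun z => f z = f y) ↔ y ∈ S.filter (fun z => f z = f y) := by
          rw [this]
        simpa using h5
      · intro h x
        rw [h]
    rw [h4] at h3
    unfold blk
    rw [measureReal_def, h3, ENNReal.toReal_prod]
    rfl
  rw [h1]
  unfold Em
  have h6 : fbT f (Finset.univ : Finset X) = Finset.univ := by
    ext y
    simp [mem_fbT]
  rw [h6, Finset.powerset_univ, Finset.sum_filter]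
  apply Finset.sum_congr rfl
  intro S _
  dsimp only
  by_cases hS : L S
  · rw [if_pos hS, h2 S, ind_true hS, mul_one]
  · rw [if_neg hS, ind_false hS, mul_zero]

end law

/-- The probability that none of the copies of a set is present, in the limit. -/
lemma eventually_block (W d₁ d c : ℝ) (hd₁ : 0 < d₁) (hd : d₁ < d) (hW : 0 < W) :
    ∀ᶠ M : ℕ in Filter.atTop, ∀ n : ℕ, (n : ℝ) ≤ M * W + c →
      Real.exp (-(d * W)) ≤ (1 - d₁ / M) ^ n := by
  have h1 : ∀ᶠ M : ℕ in Filter.atTop, 2 * d₁ ≤ (M : ℝ) :=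
    (tendsto_natCast_atTop_atTop.eventually_ge_atTop (2 * d₁))
  have h2 : ∀ᶠ M : ℕ in Filter.atTop, (c * d₁ + d * d₁ * W) / ((d - d₁) * W) ≤ (M : ℝ) :=
    (tendsto_natCast_atTop_atTop.eventually_ge_atTop _)
  filter_upwards [h1, h2] with M hM1 hM2 n hn
  have hM0 : (0 : ℝ) < M := by linarith
  have hMd : 0 < (M : ℝ) - d₁ := by linarith
  have hdd : 0 < (d - d₁) * W := mul_pos (by linarith) hW
  rw [div_le_iff₀ hdd] at hM2
  set u : ℝ := d₁ / M with hu
  have hu0 : 0 < u := div_pos hd₁ hM0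
  have hu1 : u < 1 := by rw [hu, div_lt_one hM0]; linarith
  have h1u : 0 < 1 - u := by linarith
  -- a lower bound for `1 - u`
  have h3 : Real.exp (-(u / (1 - u))) ≤ 1 - u := by
    rw [Real.exp_neg]
    have h4 : 1 / (1 - u) ≤ Real.exp (u / (1 - u)) := by
      have h5 := Real.add_one_le_exp (u / (1 - u))
      have h6 : u / (1 - u) + 1 = 1 / (1 - u) := by field_simp; ring
      rwa [h6] at h5
    rw [inv_le_comm₀ (Real.exp_pos _) h1u]
    simpa using h4
  have h7 : u / (1 - u) = d₁ / (M - d₁) := by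
    rw [hu]
    field_simp
  calc Real.exp (-(d * W)) ≤ Real.exp ((n : ℝ) * (-(u / (1 - u)))) := by
        apply Real.exp_le_exp.mpr
        rw [h7, mul_neg, neg_le_neg_iff, mul_div_assoc', div_le_iff₀ hMd]
        have h8 : (n : ℝ) * d₁ ≤ (M * W + c) * d₁ := mul_le_mul_of_nonneg_right hn hd₁.le
        nlinarith
    _ = Real.exp (-(u / (1 - u))) ^ n := by rw [Real.exp_nat_mul]
    _ ≤ (1 - u) ^ n := pow_le_pow_left₀ (Real.exp_pos _).le h3 n

section main

variable {G X Y Ω : Type} [Group G] [Fintype G] [Fintype Y] [DecidableEq Y] [Fintype X]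
  [DecidableEq X] [MeasurableSpace Ω]

/-- The estimate for a regular sequence and a smaller density. -/
lemma tail_aux (φ : G →* Equiv.Perm Y) (H : Finset Y) (hH : H.Nonempty)
    (f : Y → X) (hf : ∀ g : G, Set.InjOn f (H.image (φ g) : Finset Y))
    (w : Y → ℝ) (hw : ∀ y, 0 ≤ w y) (hinv : ∀ g y, w (φ g y) = w y)
    (r : ℕ → ℝ) (hr : ∀ t, 0 < r t) (hra : Antitone r)
    (hdbl : ∀ u t : ℕ, 1 ≤ u → u ≤ t → (u : ℝ) * r u ≤ t * r t)
    (hO : ∀ A ⊆ H, 1 ≤ (orb φ A : ℝ) * ∏ y ∈ A, (r A.card * w y))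
    (μ : Measure Ω) [IsProbabilityMeasure μ] (R : Ω → Finset Y)
    (hmeas : ∀ S, MeasurableSet {ω | R ω = S})
    (hind : iIndepFun (m := fun _ => ⊤) (fun (x : X) ω => (R ω).filter (fun y => f y = x)) μ)
    (d : ℝ) (hR : ∀ (x : X) (B : Finset Y), (∀ y ∈ B, f y = x) →
      μ.real {ω | Disjoint (R ω) B} ≤ Real.exp (-(d * ∑ y ∈ B, w y)))
    (d₁ : ℝ) (hd₁ : 0 < d₁) (hd : d₁ < d) :
    μ.real {ω | ¬ ∃ g : G, H.image (φ g) ⊆ R ω}
      ≤ Real.exp ((Real.log 3 / (65536 * (48 * r 0)))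
        * (6 * 65536 * 48 * ∑ κ ∈ Finset.range (Nat.log 2 H.card + 1), r (2 ^ κ) - d₁)) := by
  classical
  -- the choice of `M`
  have hev : ∀ᶠ M : ℕ in Filter.atTop, ∀ B : Finset Y,
      Real.exp (-(d * ∑ y ∈ B, w y)) ≤ (1 - d₁ / M) ^ (∑ y ∈ B, ⌈(M : ℝ) * w y⌉₊) := by
    rw [Filter.eventually_all]
    intro B
    by_cases hB : 0 < ∑ y ∈ B, w y
    · have h1 := eventually_block (∑ y ∈ B, w y) d₁ d B.card hd₁ hd hB
      filter_upwards [h1] with M hM
      apply hM
      push_cast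
      rw [Finset.mul_sum]
      calc ∑ y ∈ B, ((⌈(M : ℝ) * w y⌉₊ : ℕ) : ℝ) ≤ ∑ y ∈ B, ((M : ℝ) * w y + 1) := by
            apply Finset.sum_le_sum
            intro y _
            exact (Nat.ceil_lt_add_one (mul_nonneg (Nat.cast_nonneg _) (hw y))).le
        _ = _ := by rw [Finset.sum_add_distrib, Finset.sum_const, nsmul_eq_mul, mul_one]
    · have h0 : ∀ y ∈ B, w y = 0 := by
        have hsum : ∑ y ∈ B, w y = 0 :=
          le_antisymm (not_lt.mp hB) (Finset.sum_nonneg (fun y _ => hw y))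
        intro y hy
        exact (Finset.sum_eq_zero_iff_of_nonneg (fun y _ => hw y)).mp hsum y hy
      apply Filter.Eventually.of_forall
      intro M
      have h2 : ∑ y ∈ B, ⌈(M : ℝ) * w y⌉₊ = 0 := by
        apply Finset.sum_eq_zero
        intro y hy
        rw [h0 y hy, mul_zero, Nat.ceil_zero]
      rw [h2, pow_zero, Finset.sum_eq_zero h0, mul_zero, neg_zero, Real.exp_zero]
  have hev1 : ∀ᶠ M : ℕ in Filter.atTop, 65536 * (48 * r 0) < (M : ℝ) :=
    tendsto_natCast_atTop_atTop.eventually_gt_atTop _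
  have hev2 : ∀ᶠ M : ℕ in Filter.atTop, d₁ ≤ (M : ℝ) :=
    tendsto_natCast_atTop_atTop.eventually_ge_atTop _
  obtain ⟨M, hMB, hM1, hM2⟩ := (hev.and (hev1.and hev2)).exists
  have hM0' : (0 : ℝ) < M := by linarith
  have hM0 : 0 < M := by exact_mod_cast hM0'
  set N : Y → ℕ := fun y => ⌈(M : ℝ) * w y⌉₊ with hN
  set K : ℕ := ∑ y, N y with hK
  have hNK : ∀ y, N y ≤ K := fun y =>
    Finset.single_le_sum (f := N) (fun z _ => Nat.zero_le _) (Finset.mem_univ y)
  have hNinv : ∀ g y, N (φ g y) = N y := by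
    intro g y
    simp only [hN]
    rw [hinv]
  have hNw : ∀ y, (M : ℝ) * w y ≤ N y := fun y => Nat.le_ceil _
  have hp0 : 0 ≤ d₁ / M := div_nonneg hd₁.le hM0'.le
  have hp1 : d₁ / M ≤ 1 := (div_le_one hM0').mpr hM2
  have hblow := blow_tail φ H hH K M hM0 N hNK hNinv w hw hNw r hr hra hdbl hO hM1 d₁ hd₁.le hM2
  refine le_trans ?_ hblow
  set L : Finset Y → Prop := fun S => ¬ ∃ g : G, H.image (φ g) ⊆ S with hL
  have hlaw := law_eq μ f R hmeas hind L
  have hL1 : ∀ S S', S ⊆ S' → L S' → L S := by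
    rintro S S' hSS h ⟨g, hg⟩
    exact h ⟨g, hg.trans hSS⟩
  have hL2 : ∀ x S T, (∀ y ∈ T, f y = x) → L S → (∀ y ∈ T, L (insert y S)) → L (S ∪ T) := by
    rintro x S T hT hS hy ⟨g, hg⟩
    by_cases hex : ∃ y ∈ H.image (φ g), y ∉ S
    · obtain ⟨y, hyH, hyS⟩ := hex
      have hyT : y ∈ T := (Finset.mem_union.mp (hg hyH)).resolve_left hyS
      apply hy y hyT
      refine ⟨g, ?_⟩
      intro z hz
      rw [Finset.mem_insert]
      rcases Finset.mem_union.mp (hg hz) with h | h
      · exact Or.inr h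
      · left
        exact hf g (Finset.mem_coe.mpr hz) (Finset.mem_coe.mpr hyH) ((hT z h).trans (hT y hyT).symm)
    · push Not at hex
      exact hS ⟨g, hex⟩
  have hm : ∀ x, ∀ B ⊆ fb f x, ∑ S ∈ (fb f x).powerset with Disjoint S B, blk μ f R x S
      ≤ (1 - d₁ / M) ^ (∑ y ∈ B, N y) := by
    intro x B hB
    have h1 : ∑ S ∈ (fb f x).powerset with Disjoint S B, blk μ f R x S
        = μ.real {ω | (R ω).filter (fun y => f y = x)
          ∈ (fb f x).powerset.filter (fun S => Disjoint S B)} :=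
      (real_eq_sum μ R hmeas (fun T => T.filter (fun y => f y = x)) _).symm
    rw [h1]
    refine le_trans ?_ ((hR x B (fun y hy => mem_fb.mp (hB hy))).trans (hMB B))
    apply measureReal_mono
    · intro ω hω
      rw [Set.mem_ofPred_eq, Finset.mem_filter] at hω
      rw [Set.mem_ofPred_eq, Finset.disjoint_left]
      intro y hy hyB
      exact (Finset.disjoint_left.mp hω.2) (Finset.mem_filter.mpr ⟨hy, mem_fb.mp (hB hyB)⟩) hyB
    · exact measure_ne_top _ _
  have hcmp := compare f (blk μ f R) (fun x S => measureReal_nonneg) K N hNK (d₁ / M) hp0 hp1 hm L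
    hL1 hL2 Finset.univ ∅
  simp only [Finset.empty_union, Finset.mem_univ, Finset.filter_true] at hcmp
  calc μ.real {ω | ¬ ∃ g : G, H.image (φ g) ⊆ R ω} = μ.real {ω | L (R ω)} := rfl
    _ = _ := hlaw
    _ ≤ _ := hcmp
    _ = _ := rfl

/-- **The second Kahn-Kalai theorem for group actions.** -/
theorem tail (φ : G →* Equiv.Perm Y) (H : Finset Y) (hH : H.Nonempty)
    (f : Y → X) (hf : ∀ g : G, Set.InjOn f (H.image (φ g) : Finset Y))
    (w : Y → ℝ) (hw : ∀ y, 0 ≤ w y) (hinv : ∀ g y, w (φ g y) = w y)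
    (τ : ℕ → ℝ) (hτ : ∀ t, 0 < τ t) (hτa : Antitone τ)
    (hO : ∀ A ⊆ H, 1 ≤ (orb φ A : ℝ) * ∏ y ∈ A, (τ A.card * w y))
    (μ : Measure Ω) [IsProbabilityMeasure μ] (R : Ω → Finset Y)
    (hmeas : ∀ S, MeasurableSet {ω | R ω = S})
    (hind : iIndepFun (m := fun _ => ⊤) (fun (x : X) ω => (R ω).filter (fun y => f y = x)) μ)
    (d : ℝ) (hR : ∀ (x : X) (B : Finset Y), (∀ y ∈ B, f y = x) →
      μ.real {ω | Disjoint (R ω) B} ≤ Real.exp (-(d * ∑ y ∈ B, w y))) :
    μ.real {ω | ¬ ∃ g : G, H.image (φ g) ⊆ R ω}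
      ≤ Real.exp ((80000000 * ∑ κ ∈ Finset.range (Nat.log 2 H.card + 1), τ (2 ^ κ) - d)
        / (3000000 * τ 1)) := by
  classical
  have hτ1 := hτ 1
  set Sτ : ℝ := ∑ κ ∈ Finset.range (Nat.log 2 H.card + 1), τ (2 ^ κ) with hSτ
  by_cases hcase : 80000000 * Sτ - d ≤ 0
  swap
  · push Not at hcase
    refine measureReal_le_one.trans ?_
    rw [← Real.exp_zero]
    apply Real.exp_le_exp.mpr
    exact div_nonneg hcase.le (by positivity)
  -- the modified sequence
  set q : ℕ → ℝ := fun t => τ (max t 1) with hq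
  have hqpos : ∀ t, 0 < q t := fun t => hτ _
  have hqanti : Antitone q := fun a b hab => hτa (max_le_max hab le_rfl)
  have hq0 : q 0 = τ 1 := rfl
  have hq1 : q 1 = τ 1 := rfl
  set r : ℕ → ℝ := Pool.Agent.TH879.MS.reg q with hr
  have hrpos : ∀ t, 0 < r t :=
    Pool.Agent.TH879.MS.reg_pos q (fun t => (hqpos t).le) (hqpos 0) (hqpos 1)
  have hr0 : r 0 = τ 1 := rfl
  have hsum := Pool.Agent.TH879.MS.reg_sum q (fun t => (hqpos t).le) hqanti
    (Nat.log 2 H.card + 1) (by omega)
  have hqS : ∑ κ ∈ Finset.range (Nat.log 2 H.card + 1), q (2 ^ κ) = Sτ := by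
    apply Finset.sum_congr rfl
    intro κ _
    simp only [hq]
    rw [max_eq_left Nat.one_le_two_pow]
  rw [hqS] at hsum
  have hO' : ∀ A ⊆ H, 1 ≤ (orb φ A : ℝ) * ∏ y ∈ A, (r A.card * w y) := by
    intro A hA
    refine (hO A hA).trans ?_
    apply mul_le_mul_of_nonneg_left _ (Nat.cast_nonneg _)
    apply Finset.prod_le_prod
    · intro y _
      exact mul_nonneg (hτ _).le (hw y)
    · intro y hy
      apply mul_le_mul_of_nonneg_right _ (hw y)
      have h1 : 1 ≤ A.card := Finset.card_pos.mpr ⟨y, hy⟩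
      have h2 := Pool.Agent.TH879.MS.le_reg q A.card
      have h3 : q A.card = τ A.card := by
        simp only [hq]
        rw [max_eq_left h1]
      rw [← h3]
      exact h2
  -- all smaller densities
  have hSpos : 0 < Sτ := Finset.sum_pos (fun κ _ => hτ _) (by simp)
  have hd0 : 0 < d := by linarith
  set E : ℝ → ℝ := fun t => Real.exp ((Real.log 3 / (65536 * (48 * r 0)))
        * (6 * 65536 * 48 * ∑ κ ∈ Finset.range (Nat.log 2 H.card + 1), r (2 ^ κ) - t)) with hE
  have hEt : Filter.Tendsto E (nhdsWithin d (Set.Iio d)) (nhds (E d)) := by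
    have : Continuous E := by
      simp only [hE]
      fun_prop
    exact this.continuousAt.tendsto.mono_left nhdsWithin_le_nhds
  have hlim : μ.real {ω | ¬ ∃ g : G, H.image (φ g) ⊆ R ω} ≤ E d := by
    refine ge_of_tendsto hEt ?_
    have hev : ∀ᶠ t in nhdsWithin d (Set.Iio d), t ∈ Set.Ioo 0 d := Ioo_mem_nhdsLT hd0
    filter_upwards [hev] with t ht
    exact tail_aux φ H hH f hf w hw hinv r hrpos
      (Pool.Agent.TH879.MS.reg_anti q (fun t => (hqpos t).le) hqanti)
      (fun u t _ hut => Pool.Agent.TH879.MS.reg_dbl q u t hut) hO' μ R hmeas hind d hR t ht.1 ht.2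
  refine hlim.trans (Real.exp_le_exp.mpr ?_)
  have hlog3 : 1.0486 ≤ Real.log 3 := by
    rw [Real.le_log_iff_exp_le (by norm_num)]
    have h1 : Real.exp 1.0486 = Real.exp 1 * Real.exp 0.0486 := by
      rw [← Real.exp_add]; norm_num
    have h2 : Real.exp 0.0486 ≤ 1 / (1 - 0.0486) := by
      have h3 := Real.add_one_le_exp (-0.0486 : ℝ)
      have h4 : Real.exp 0.0486 * Real.exp (-0.0486) = 1 := by
        rw [← Real.exp_add]; norm_num
      have h5 : 0 < Real.exp 0.0486 := Real.exp_pos _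
      rw [le_div_iff₀ (by norm_num)]
      nlinarith
    have h6 := Real.exp_one_lt_d9
    rw [h1]
    have h7 : 0 < Real.exp 0.0486 := Real.exp_pos _
    nlinarith
  have hnum : 6 * 65536 * 48 * ∑ κ ∈ Finset.range (Nat.log 2 H.card + 1), r (2 ^ κ) - d
      ≤ 80000000 * Sτ - d := by linarith
  rw [hr0]
  calc Real.log 3 / (65536 * (48 * τ 1))
        * (6 * 65536 * 48 * ∑ κ ∈ Finset.range (Nat.log 2 H.card + 1), r (2 ^ κ) - d)
      ≤ Real.log 3 / (65536 * (48 * τ 1)) * (80000000 * Sτ - d) :=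
        mul_le_mul_of_nonneg_left hnum (by positivity)
    _ ≤ 1 / (3000000 * τ 1) * (80000000 * Sτ - d) := by
        apply mul_le_mul_of_nonpos_right _ hcase
        rw [div_le_div_iff₀ (by positivity) (by positivity)]
        nlinarith
    _ = (80000000 * Sτ - d) / (3000000 * τ 1) := by ring

end main

end Pool.Agent.Y416.KK
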