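import Pool.Agent.Y416.KK.Main

set_option autoImplicit false
set_option linter.unusedSectionVars false

/-!
# Rainbow copies in randomly coloured random graphs
-/

namespace Pool.Agent.Y416.KK

open Finset MeasureTheory ProbabilityTheory

section orbits

variable {G Y : Type} [Group G] [Fintype G] [DecidableEq Y]

/-- The action of `G` and the permutations of the colours on coloured points. -/
def rh (φ : G →* Equiv.Perm Y) (κ : ℕ) : G × Equiv.Perm (Fin κ) →* Equiv.Perm (Y × Fin κ) where
  toFun x := Equiv.prodCongr (φ x.1) x.2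
  map_one' := by
    apply Equiv.ext
    rintro ⟨y, c⟩
    simp
  map_mul' x x' := by
    apply Equiv.ext
    rintro ⟨y, c⟩
    simp

lemma rh_apply (φ : G →* Equiv.Perm Y) (κ : ℕ) (g : G) (ρ : Equiv.Perm (Fin κ)) (y : Y)
    (c : Fin κ) : rh φ κ (g, ρ) (y, c) = (φ g y, ρ c) := rfl

/-- The number of translates of a rainbow set. -/
lemma orb_rainbow (φ : G →* Equiv.Perm Y) (κ : ℕ) (A : Finset Y) (c₀ : Y → Fin κ)
    (hc₀ : Set.InjOn c₀ (A : Set Y)) :
    orb φ A * κ.descFactorial A.card ≤ orb (rh φ κ) (A.image (fun y => (y, c₀ y))) := by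
  classical
  set D : Finset (Finset Y) := Finset.univ.image (fun g : G => A.image (φ g)) with hD
  have hcardB : ∀ B ∈ D, B.card = A.card := by
    intro B hB
    rw [hD, Finset.mem_image] at hB
    obtain ⟨g, -, rfl⟩ := hB
    exact Finset.card_image_of_injective _ (φ g).injective
  have hcard : (D.sigma (fun B => (Finset.univ : Finset ({y // y ∈ B} ↪ Fin κ)))).card
      = orb φ A * κ.descFactorial A.card := by
    rw [Finset.card_sigma]
    have h1 : ∀ B ∈ D, (Finset.univ : Finset ({y // y ∈ B} ↪ Fin κ)).card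
        = κ.descFactorial A.card := by
      intro B hB
      rw [Finset.card_univ, Fintype.card_embedding_eq, Fintype.card_fin, Fintype.card_coe,
        hcardB B hB]
    rw [Finset.sum_congr rfl h1, Finset.sum_const, smul_eq_mul]
    rfl
  rw [← hcard]
  unfold orb
  apply Finset.card_le_card_of_injOn
    (fun x : (Σ B : Finset Y, ({y // y ∈ B} ↪ Fin κ)) => x.1.attach.image (fun y => (y.1, x.2 y)))
  · rintro ⟨B, c⟩ hx
    rw [Finset.mem_coe, Finset.mem_sigma] at hx
    have hB := hx.1
    simp only at hB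
    rw [hD, Finset.mem_image] at hB
    obtain ⟨g, -, rfl⟩ := hB
    have hmem : ∀ y : {y // y ∈ A}, φ g y.1 ∈ A.image (φ g) :=
      fun y => Finset.mem_image_of_mem _ y.2
    obtain ⟨ρ, hρ⟩ := Equiv.Perm.exists_extending_pair (fun y : {y // y ∈ A} => c₀ y.1)
      (fun y : {y // y ∈ A} => c ⟨φ g y.1, hmem y⟩)
      (fun y y' h => Subtype.ext (hc₀ y.2 y'.2 h))
      (fun y y' h => by
        have h1 := c.injective h
        have h2 := congrArg Subtype.val h1
        exact Subtype.ext ((φ g).injective h2))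
    rw [Finset.mem_coe, Finset.mem_image]
    refine ⟨(g, ρ), Finset.mem_univ _, ?_⟩
    ext ⟨z, i⟩
    simp only [Finset.mem_image, Finset.mem_attach, true_and]
    constructor
    · rintro ⟨x, ⟨y, hy, rfl⟩, hx⟩
      rw [rh_apply, Prod.mk.injEq] at hx
      obtain ⟨rfl, rfl⟩ := hx
      refine ⟨⟨φ g y, Finset.mem_image_of_mem _ hy⟩, ?_⟩
      rw [Prod.mk.injEq]
      exact ⟨rfl, (hρ ⟨y, hy⟩).symm⟩
    · rintro ⟨⟨w, hw⟩, hx⟩
      rw [Prod.mk.injEq] at hx
      obtain ⟨rfl, rfl⟩ := hx
      have hw' := hw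
      rw [Finset.mem_image] at hw'
      obtain ⟨y, hy, rfl⟩ := hw'
      refine ⟨(y, c₀ y), ⟨y, hy, rfl⟩, ?_⟩
      rw [rh_apply, Prod.mk.injEq]
      exact ⟨rfl, hρ ⟨y, hy⟩⟩
  · rintro ⟨B, c⟩ hx ⟨B', c'⟩ hx' h
    simp only at h
    have key : ∀ (B : Finset Y) (c : {y // y ∈ B} ↪ Fin κ),
        (B.attach.image (fun y => (y.1, c y))).image Prod.fst = B := by
      intro B c
      rw [Finset.image_image]
      have : (Prod.fst ∘ fun y : {y // y ∈ B} => (y.1, c y)) = Subtype.val := rfl
      rw [this, Finset.attach_image_val]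
    have hBB : B = B' := by
      rw [← key B c, h, key B' c']
    subst hBB
    have hcc : c = c' := by
      apply Function.Embedding.ext
      intro y
      have h1 : (y.1, c y) ∈ B.attach.image (fun y => (y.1, c' y)) := by
        rw [← h]
        exact Finset.mem_image_of_mem _ (Finset.mem_attach _ _)
      rw [Finset.mem_image] at h1
      obtain ⟨z, _, hz⟩ := h1
      rw [Prod.mk.injEq] at hz
      have hzy : z = y := Subtype.ext hz.1
      rw [hzy] at hz
      exact hz.2.symm
    rw [hcc]

lemma one_le_desc (κ a : ℕ) (ha : a ≤ κ) :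
    1 ≤ (κ.descFactorial a : ℝ) * (Real.exp 1 / κ) ^ a := by
  rcases Nat.eq_zero_or_pos κ with hκ | hκ
  · subst hκ
    have : a = 0 := by omega
    subst this
    simp
  · have h1 := Pool.Agent.TH965.Copy.pow_le_exp_mul_descFactorial κ a ha
    have hκ0 : (0 : ℝ) < (κ : ℝ) ^ a := by positivity
    rw [div_pow, ← mul_div_assoc, le_div_iff₀ hκ0, one_mul, ← Real.exp_nat_mul, mul_one, mul_comm]
    exact h1

end orbits

section graph

open Pool.Agent.TH965 Pool.Agent.TH965.Emb Pool.Agent.TH965.Copy Pool.Agent.TH879.MS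
open Pool.Agent.TH948.KK (pairHom)

lemma pEk_pos {n m : ℕ} (hmn : m ≤ n) (H : SimpleGraph (Fin m)) (k : ℕ)
    (hk : k ≤ H.edgeSet.ncard) (hH : H ≠ ⊥) : 0 < pEk n k H := by
  have h := (pEk_least hmn k H).1
  rcases h.1.lt_or_eq with h0 | h0
  · exact h0
  · exfalso
    have h2 : (⊤ : H.Subgraph).edgeSet.ncard ≠ 0 := by
      rw [SimpleGraph.Subgraph.edgeSet_top, Ne, Set.ncard_eq_zero]
      intro he
      exact hH (SimpleGraph.edgeSet_eq_empty.mp he)
    have h1 := h.2.2 ⊤ (by rw [SimpleGraph.Subgraph.edgeSet_top]; exact hk)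
    rw [← h0, zero_pow h2, mul_zero] at h1
    linarith

/-- **Rainbow copies.** -/
theorem rainbow_tail {Ω : Type} [MeasurableSpace Ω] (n m κ : ℕ) (hmn : m ≤ n)
    (H : SimpleGraph (Fin m)) (hH : H ≠ ⊥) (hκ : H.edgeSet.ncard ≤ κ)
    (μ : Measure Ω) [IsProbabilityMeasure μ] (ξ : Sym2 (Fin n) → Ω → Option (Fin κ))
    (hmeas : ∀ e c, MeasurableSet {ω | ξ e ω = c})
    (hind : iIndepFun (m := fun _ => ⊤) ξ μ) (p : ℝ)
    (hp : ∀ e : Sym2 (Fin n), ¬ e.IsDiag → ∀ c : Fin κ, p / κ ≤ μ.real {ω | ξ e ω = some c}) :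
    μ.real {ω | ¬ ∃ (ψ : Fin m ↪ Fin n) (c : Sym2 (Fin m) → Fin κ), Set.InjOn c H.edgeSet ∧
        ∀ e ∈ H.edgeSet, ξ (Sym2.map ψ e) ω = some (c e)}
      ≤ Real.exp ((220000000 * ∑ j ∈ Finset.range (Nat.log 2 H.edgeSet.ncard + 1), pEk n (2 ^ j) H
          - p) / (8200000 * pE n H)) := by
  classical
  set e₀ : ℕ := H.edgeSet.ncard with he₀
  have hedge : 1 ≤ e₀ := by
    rw [he₀, Nat.one_le_iff_ne_zero, Ne, Set.ncard_eq_zero]
    intro he
    exact hH (SimpleGraph.edgeSet_eq_empty.mp he)
  have hκ1 : 1 ≤ κ := hedge.trans hκ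
  have hκ0 : (0 : ℝ) < κ := by exact_mod_cast hκ1
  set S : ℝ := ∑ j ∈ Finset.range (Nat.log 2 e₀ + 1), pEk n (2 ^ j) H with hS
  have hE : 0 < pE n H := pE_pos hmn H hH
  by_cases hcase : 220000000 * S - p ≤ 0
  swap
  · push Not at hcase
    refine measureReal_le_one.trans ?_
    rw [← Real.exp_zero]
    apply Real.exp_le_exp.mpr
    exact div_nonneg hcase.le (by positivity)
  -- the colours of `H`
  obtain ⟨c₁, hc₁⟩ : ∃ c₁ : {e // e ∈ eF H} → Fin κ, Function.Injective c₁ := by
    have h1 : Fintype.card {e // e ∈ eF H} ≤ Fintype.card (Fin κ) := by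
      rw [Fintype.card_coe, eF_card, Fintype.card_fin]
      exact hκ
    obtain ⟨c⟩ := Function.Embedding.nonempty_of_card_le h1
    exact ⟨c, c.injective⟩
  have hcinj : Function.Injective (Sym2.map (Fin.castLE hmn)) :=
    Sym2.map.injective (Fin.castLE_injective hmn)
  set B : Finset (Sym2 (Fin n)) := (eF H).image (Sym2.map (Fin.castLE hmn)) with hB
  have hBcard : B.card = e₀ := by
    rw [hB, Finset.card_image_of_injective _ hcinj, eF_card]
  have hex : ∀ z : {z // z ∈ B}, ∃ e : {e // e ∈ eF H}, Sym2.map (Fin.castLE hmn) e.1 = z.1 := by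
    rintro ⟨z, hz⟩
    rw [hB, Finset.mem_image] at hz
    obtain ⟨e, he, h⟩ := hz
    exact ⟨⟨e, he⟩, h⟩
  choose pre hpre using hex
  set c₀ : Sym2 (Fin n) → Fin κ := fun z => if hz : z ∈ B then c₁ (pre ⟨z, hz⟩) else ⟨0, hκ1⟩ with hc₀
  have hc₀inj : Set.InjOn c₀ (B : Set (Sym2 (Fin n))) := by
    intro z hz z' hz' h
    rw [Finset.mem_coe] at hz hz'
    simp only [hc₀] at h
    rw [dif_pos hz, dif_pos hz'] at h
    have h1 := hc₁ h
    have h2 := hpre ⟨z, hz⟩
    rw [h1, hpre ⟨z', hz'⟩] at h2
    exact h2.symm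
  set H' : Finset (Sym2 (Fin n) × Fin κ) := B.image (fun z => (z, c₀ z)) with hH'
  have hgr : Function.Injective (fun z : Sym2 (Fin n) => (z, c₀ z)) := fun a b h => (Prod.mk.inj h).1
  have hH'card : H'.card = e₀ := by
    rw [hH', Finset.card_image_of_injective _ hgr, hBcard]
  -- the weights
  set w : Sym2 (Fin n) × Fin κ → ℝ := fun y => if y.1.IsDiag then 0 else 1 with hw
  have hdiag : ∀ (σ : Equiv.Perm (Fin n)) (e : Sym2 (Fin n)), (Sym2.map σ e).IsDiag ↔ e.IsDiag := by
    intro σ e
    induction e using Sym2.ind with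
    | _ a b =>
      rw [Sym2.map_mk, Sym2.mk_isDiag_iff, Sym2.mk_isDiag_iff]
      exact σ.injective.eq_iff
  have hBdiag : ∀ z ∈ B, ¬ z.IsDiag := by
    intro z hz
    rw [hB, Finset.mem_image] at hz
    obtain ⟨e, he, rfl⟩ := hz
    rw [mem_eF] at he
    induction e using Sym2.ind with
    | _ a b =>
      rw [Sym2.map_mk, Sym2.mk_isDiag_iff]
      intro h
      exact he.ne (Fin.castLE_injective hmn h)
  -- the sequence
  set τ : ℕ → ℝ := fun t => Real.exp 1 * pEk n (min t e₀) H / κ with hτ
  have hτpos : ∀ t, 0 < τ t := by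
    intro t
    have h1 := pEk_pos hmn H (min t e₀) (min_le_right _ _) hH
    simp only [hτ]
    positivity
  have hτanti : Antitone τ := by
    intro a b hab
    simp only [hτ]
    apply div_le_div_of_nonneg_right _ hκ0.le
    apply mul_le_mul_of_nonneg_left _ (Real.exp_pos 1).le
    exact pEk_anti hmn H (min_le_min_right _ hab)
  set R : Ω → Finset (Sym2 (Fin n) × Fin κ) := fun ω =>
    Finset.univ.filter (fun y => ξ y.1 ω = some y.2) with hR
  have hmemR : ∀ ω y, y ∈ R ω ↔ ξ y.1 ω = some y.2 := by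
    intro ω y
    simp [hR]
  have hRmeas : ∀ T, MeasurableSet {ω | R ω = T} := by
    intro T
    have h1 : {ω | R ω = T} = ⋂ y : Sym2 (Fin n) × Fin κ, {ω | ξ y.1 ω = some y.2 ↔ y ∈ T} := by
      ext ω
      rw [Set.mem_iInter]
      constructor
      · intro h y
        change ξ y.1 ω = some y.2 ↔ y ∈ T
        rw [← hmemR, show R ω = T from h]
      · intro h
        change R ω = T
        ext y
        rw [hmemR]
        exact h y
    rw [h1]
    apply MeasurableSet.iInter
    intro y
    by_cases hy : y ∈ T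
    · have : {ω | ξ y.1 ω = some y.2 ↔ y ∈ T} = {ω | ξ y.1 ω = some y.2} := by
        ext ω
        simp [hy]
      rw [this]
      exact hmeas _ _
    · have : {ω | ξ y.1 ω = some y.2 ↔ y ∈ T} = {ω | ξ y.1 ω = some y.2}ᶜ := by
        ext ω
        simp [hy]
      rw [this]
      exact (hmeas _ _).compl
  have hRind : iIndepFun (m := fun _ => ⊤)
      (fun (x : Sym2 (Fin n)) ω => (R ω).filter (fun y => y.1 = x)) μ := by
    have h1 : (fun (x : Sym2 (Fin n)) ω => (R ω).filter (fun y => y.1 = x))
        = fun x => (fun o : Option (Fin κ) => (Finset.univ : Finset (Sym2 (Fin n) × Fin κ)).filter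
          (fun y => o = some y.2 ∧ y.1 = x)) ∘ ξ x := by
      funext x ω
      ext y
      rw [Finset.mem_filter, hmemR]
      simp only [Function.comp_apply, Finset.mem_filter, Finset.mem_univ, true_and]
      constructor
      · rintro ⟨h, rfl⟩
        exact ⟨h, rfl⟩
      · rintro ⟨h, rfl⟩
        exact ⟨h, rfl⟩
    rw [h1]
    exact iIndepFun.comp (mβ := fun _ => ⊤) (mγ := fun _ => ⊤) hind _ (fun x s _ => trivial)
  have hmain := tail (rh (pairHom n) κ) H' (Finset.card_pos.mp (by omega)) (X := Sym2 (Fin n))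
    Prod.fst
    (by
      rintro ⟨σ, ρ⟩ y hy y' hy' h
      rw [Finset.mem_coe, Finset.mem_image] at hy hy'
      obtain ⟨z, hz, rfl⟩ := hy
      obtain ⟨z', hz', rfl⟩ := hy'
      rw [hH', Finset.mem_image] at hz hz'
      obtain ⟨a, ha, rfl⟩ := hz
      obtain ⟨a', ha', rfl⟩ := hz'
      rw [rh_apply, rh_apply] at h ⊢
      have := (pairHom n σ).injective h
      rw [this])
    w (by
      intro y
      simp only [hw]
      split_ifs <;> norm_num)
    (by
      rintro ⟨σ, ρ⟩ ⟨e, c⟩
      rw [rh_apply]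
      simp only [hw]
      have : ((pairHom n) σ) e = Sym2.map σ e := rfl
      rw [this]
      simp only [hdiag])
    τ hτpos hτanti
    (by
      intro A' hA'
      obtain ⟨A, hA, rfl⟩ : ∃ A ⊆ B, A' = A.image (fun z => (z, c₀ z)) := by
        refine ⟨B.filter (fun z => (z, c₀ z) ∈ A'), Finset.filter_subset _ _, ?_⟩
        ext x
        constructor
        · intro hx
          have h1 := hA' hx
          rw [hH', Finset.mem_image] at h1
          obtain ⟨y, hy, rfl⟩ := h1
          exact Finset.mem_image_of_mem _ (Finset.mem_filter.mpr ⟨hy, hx⟩)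
        · intro hx
          rw [Finset.mem_image] at hx
          obtain ⟨y, hy, rfl⟩ := hx
          exact (Finset.mem_filter.mp hy).2
      have hcard : (A.image (fun z => (z, c₀ z))).card = A.card :=
        Finset.card_image_of_injective _ hgr
      have hAe : A.card ≤ e₀ := by
        rw [← hBcard]
        exact Finset.card_le_card hA
      have h1 := orb_rainbow (pairHom n) κ A c₀ (hc₀inj.mono (Finset.coe_subset.mpr hA))
      have h2 : ((orb (pairHom n) A * κ.descFactorial A.card : ℕ) : ℝ)
          ≤ (orb (rh (pairHom n) κ) (A.image (fun z => (z, c₀ z))) : ℝ) := by exact_mod_cast h1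
      have h3 := orbit_countM hmn H (pEk n A.card H) (pEk_nonneg hmn _ H) A
        (fun H'' hH'' => (pEk_least hmn A.card H).1.2.2 H'' hH''.ge) hA
      have h3' : 1 ≤ (orb (pairHom n) A : ℝ) * pEk n A.card H ^ A.card := by
        refine h3.trans (le_of_eq ?_)
        unfold orb
        congr 3
      have h4 := one_le_desc κ A.card (hAe.trans hκ)
      have h5 : ∏ y ∈ A.image (fun z => (z, c₀ z)), (τ (A.image (fun z => (z, c₀ z))).card * w y)
          = (pEk n A.card H) ^ A.card * (Real.exp 1 / κ) ^ A.card := by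
        rw [hcard, Finset.prod_image (fun a _ b _ h => hgr h)]
        have h6 : ∀ z ∈ A, τ A.card * w (z, c₀ z) = pEk n A.card H * (Real.exp 1 / κ) := by
          intro z hz
          simp only [hw, hτ]
          rw [if_neg (hBdiag z (hA hz)), min_eq_left hAe]
          ring
        rw [Finset.prod_congr rfl h6, Finset.prod_const, mul_pow]
      rw [h5]
      have h7 : (0 : ℝ) ≤ pEk n A.card H := pEk_nonneg hmn _ H
      calc (1 : ℝ) ≤ ((orb (pairHom n) A : ℝ) * pEk n A.card H ^ A.card)
            * ((κ.descFactorial A.card : ℝ) * (Real.exp 1 / κ) ^ A.card) :=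
            one_le_mul_of_one_le_of_one_le h3' h4
        _ = ((orb (pairHom n) A * κ.descFactorial A.card : ℕ) : ℝ)
            * ((pEk n A.card H) ^ A.card * (Real.exp 1 / κ) ^ A.card) := by
            push_cast; ring
        _ ≤ _ := mul_le_mul_of_nonneg_right h2 (by positivity))
    μ R hRmeas hRind (p / κ)
    (by
      intro x T hT
      -- the avoidance probability
      by_cases hx : x.IsDiag
      · have h0 : ∑ y ∈ T, w y = 0 := by
          apply Finset.sum_eq_zero
          intro y hy
          simp only [hw]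
          rw [hT y hy, if_pos hx]
        rw [h0, mul_zero, neg_zero, Real.exp_zero]
        exact measureReal_le_one
      · have h0 : ∑ y ∈ T, w y = T.card := by
          rw [Finset.sum_congr rfl (g := fun _ => (1 : ℝ)), Finset.sum_const, nsmul_eq_mul, mul_one]
          intro y hy
          simp only [hw]
          rw [hT y hy, if_neg hx]
        rw [h0]
        have h1 : μ.real {ω | ¬ Disjoint (R ω) T} = ∑ y ∈ T, μ.real {ω | ξ y.1 ω = some y.2} := by
          have h2 : {ω | ¬ Disjoint (R ω) T} = ⋃ y ∈ T, {ω | ξ y.1 ω = some y.2} := by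
            ext ω
            rw [Set.mem_iUnion₂]
            change ¬ Disjoint (R ω) T ↔ _
            rw [Finset.not_disjoint_iff]
            constructor
            · rintro ⟨y, hy, hyT⟩
              exact ⟨y, hyT, (hmemR ω y).mp hy⟩
            · rintro ⟨y, hyT, hy⟩
              exact ⟨y, (hmemR ω y).mpr hy, hyT⟩
          rw [h2]
          apply measureReal_biUnion_finset
          · intro y hy y' hy' hne
            rw [Function.onFun, Set.disjoint_left]
            intro ω hω hω'
            apply hne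
            have e1 : y.1 = y'.1 := (hT y hy).trans (hT y' hy').symm
            have e2 : ξ y.1 ω = some y.2 := hω
            have e3 : ξ y'.1 ω = some y'.2 := hω'
            rw [← e1, e2] at e3
            exact Prod.ext e1 (Option.some.inj e3)
          · intro y _
            exact hmeas _ _
          · intro y _
            exact measure_ne_top _ _
        have h3 : (T.card : ℝ) * (p / κ) ≤ μ.real {ω | ¬ Disjoint (R ω) T} := by
          rw [h1, ← nsmul_eq_mul, ← Finset.sum_const]
          apply Finset.sum_le_sum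
          intro y hy
          exact hp y.1 (by rw [hT y hy]; exact hx) y.2
        have h4 : μ.real {ω | Disjoint (R ω) T} = 1 - μ.real {ω | ¬ Disjoint (R ω) T} := by
          have h5 := probReal_compl_eq_one_sub (μ := μ)
            (meas_pred R hRmeas (fun S => ¬ Disjoint S T))
          rw [← h5]
          congr 1
          ext ω
          simp
        rw [h4]
        have h6 := Real.add_one_le_exp (-(p / κ * (T.card : ℝ)))
        linarith)
  -- translation of the conclusion
  have hle : μ.real {ω | ¬ ∃ (ψ : Fin m ↪ Fin n) (c : Sym2 (Fin m) → Fin κ), Set.InjOn c H.edgeSet ∧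
        ∀ e ∈ H.edgeSet, ξ (Sym2.map ψ e) ω = some (c e)}
      ≤ μ.real {ω | ¬ ∃ g : Equiv.Perm (Fin n) × Equiv.Perm (Fin κ),
        H'.image (rh (pairHom n) κ g) ⊆ R ω} := by
    apply measureReal_mono
    · intro ω hω
      change ¬ ∃ g : Equiv.Perm (Fin n) × Equiv.Perm (Fin κ), H'.image (rh (pairHom n) κ g) ⊆ R ω
      rintro ⟨⟨σ, ρ⟩, hg⟩
      apply hω
      refine ⟨⟨fun i => σ (Fin.castLE hmn i),
        fun a b h => Fin.castLE_injective hmn (σ.injective h)⟩,
        fun e => ρ (c₀ (Sym2.map (Fin.castLE hmn) e)), ?_, ?_⟩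
      · intro e he e' he' h
        have h1 : Sym2.map (Fin.castLE hmn) e ∈ B := Finset.mem_image_of_mem _ (mem_eF.mpr he)
        have h1' : Sym2.map (Fin.castLE hmn) e' ∈ B := Finset.mem_image_of_mem _ (mem_eF.mpr he')
        exact hcinj (hc₀inj (Finset.mem_coe.mpr h1) (Finset.mem_coe.mpr h1') (ρ.injective h))
      · intro e he
        have h1 : Sym2.map (Fin.castLE hmn) e ∈ B := Finset.mem_image_of_mem _ (mem_eF.mpr he)
        have h2 : rh (pairHom n) κ (σ, ρ)
            (Sym2.map (Fin.castLE hmn) e, c₀ (Sym2.map (Fin.castLE hmn) e)) ∈ R ω :=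
          hg (Finset.mem_image_of_mem _ (Finset.mem_image_of_mem _ h1))
        rw [rh_apply, hmemR] at h2
        have h3 : ((pairHom n) σ) (Sym2.map (Fin.castLE hmn) e)
            = Sym2.map (fun i => σ (Fin.castLE hmn i)) e := by
          change Sym2.map σ (Sym2.map (Fin.castLE hmn) e) = _
          rw [Sym2.map_map]
          rfl
        rw [h3] at h2
        exact h2
    · exact measure_ne_top _ _
  refine hle.trans (hmain.trans (Real.exp_le_exp.mpr ?_))
  rw [hH'card]
  have hsum : ∑ j ∈ Finset.range (Nat.log 2 e₀ + 1), τ (2 ^ j) = Real.exp 1 * S / κ := by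
    rw [hS, Finset.mul_sum, Finset.sum_div]
    apply Finset.sum_congr rfl
    intro j hj
    simp only [hτ]
    have h1 : 2 ^ j ≤ e₀ := by
      refine (Nat.pow_le_pow_right (by norm_num) (Nat.lt_succ_iff.mp (Finset.mem_range.mp hj))).trans ?_
      exact Nat.pow_log_le_self 2 (by omega)
    rw [min_eq_left h1]
  have hτ1 : τ 1 = Real.exp 1 * pE n H / κ := by
    simp only [hτ]
    rw [min_eq_left hedge, pEk_one hmn]
  rw [hsum, hτ1]
  have he1 := Real.exp_one_lt_d9
  have he0 := Real.exp_pos 1
  have hS0 : 0 ≤ S := Finset.sum_nonneg (fun κ _ => pEk_nonneg hmn _ H)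
  have e1 : (80000000 * (Real.exp 1 * S / κ) - p / κ) / (3000000 * (Real.exp 1 * pE n H / κ))
      = (80000000 * (Real.exp 1 * S) - p) / (3000000 * (Real.exp 1 * pE n H)) := by
    field_simp
  rw [e1]
  have h1 : 80000000 * (Real.exp 1 * S) - p ≤ 220000000 * S - p := by nlinarith
  calc (80000000 * (Real.exp 1 * S) - p) / (3000000 * (Real.exp 1 * pE n H))
      ≤ (220000000 * S - p) / (3000000 * (Real.exp 1 * pE n H)) :=
        div_le_div_of_nonneg_right h1 (by positivity)
    _ ≤ (220000000 * S - p) / (8200000 * pE n H) := by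
        rw [div_le_div_iff₀ (by positivity) (by positivity)]
        apply mul_le_mul_of_nonpos_left _ hcase
        nlinarith

end graph

end Pool.Agent.Y416.KK
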